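import Pool.Agent.Lib.MP_4d5ce1_nt.Count

/-!
# The points `s a + 2^M t b`: height and truncated counting function
-/

set_option autoImplicit false
set_option linter.unusedSectionVars false
set_option linter.unusedVariables false

open NumberField IsDedekindDomain Height

namespace Pool.Agent.Lib.MP_4d5ce1_nt

variable {K : Type*} [Field K] [NumberField K] {q : ℕ}

/-- The point `s α + 2^M t β`. -/
def pt (a b : K × K) (M : ℕ) (s t : 𝓞 K) : K × K :=
  ((s : K) * a.1 + 2 ^ M * (t : K) * b.1, (s : K) * a.2 + 2 ^ M * (t : K) * b.2)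

lemma wedge_pt_right (a b : K × K) (M : ℕ) (s t : 𝓞 K) :
    wedge (pt a b M s t) b = (s : K) * wedge a b := by
  unfold wedge pt; ring

lemma wedge_pt_left (a b : K × K) (M : ℕ) (s t : 𝓞 K) :
    wedge (pt a b M s t) a = 2 ^ M * (t : K) * wedge b a := by
  unfold wedge pt; ring

lemma wedge_swap (a b : K × K) : wedge b a = - wedge a b := by unfold wedge; ring

lemma fa_int_le_one (v : HeightOneSpectrum (𝓞 K)) (s : 𝓞 K) : fa v (s : K) ≤ 1 :=
  FinitePlace.norm_le_one K v s

lemma fa_two_le_one (v : HeightOneSpectrum (𝓞 K)) : fa v (2 : K) ≤ 1 := by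
  have := fa_natCast_le_one (K := K) v 2
  simpa using this

lemma w_two (w : InfinitePlace K) : w (2 : K) = 2 := by
  have := InfinitePlace.map_natCast w 2
  simpa using this

lemma pt_ne_zero {a b : K × K} (hab : wedge a b ≠ 0) (M : ℕ) {s : 𝓞 K} (t : 𝓞 K) (hs : s ≠ 0) :
    pt a b M s t ≠ 0 := by
  have h : wedge (pt a b M s t) b ≠ 0 := by
    rw [wedge_pt_right]
    refine mul_ne_zero ?_ hab
    exact fun h0 => hs (by exact_mod_cast h0)
  exact wedge_left_ne h

lemma sz_pt_le (v : HeightOneSpectrum (𝓞 K)) (a b : K × K) (M : ℕ) (s t : 𝓞 K) :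
    sz v (pt a b M s t) ≤ max (sz v a) (sz v b) := by
  have key : ∀ p r : K, fa v p ≤ sz v a → fa v r ≤ sz v b →
      fa v ((s : K) * p + 2 ^ M * (t : K) * r) ≤ max (sz v a) (sz v b) := by
    intro p r hp hr
    refine (fa_add_le v _ _).trans (max_le_max ?_ ?_)
    · rw [fa_mul]
      calc fa v (s : K) * fa v p ≤ 1 * fa v p :=
            mul_le_mul_of_nonneg_right (fa_int_le_one v s) (fa_nonneg v _)
        _ ≤ sz v a := by rw [one_mul]; exact hp
    · rw [fa_mul, fa_mul, fa_pow]
      have h3 : fa v (2 : K) ^ M * fa v (t : K) ≤ 1 :=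
        mul_le_one₀ (pow_le_one₀ (fa_nonneg v _) (fa_two_le_one v)) (fa_nonneg v _)
          (fa_int_le_one v t)
      calc fa v (2 : K) ^ M * fa v (t : K) * fa v r ≤ 1 * fa v r :=
            mul_le_mul_of_nonneg_right h3 (fa_nonneg v _)
        _ ≤ sz v b := by rw [one_mul]; exact hr
  unfold sz pt
  exact max_le (key _ _ (le_max_left _ _) (le_max_left _ _))
    (key _ _ (le_max_right _ _) (le_max_right _ _))

lemma szi_pt_le (w : InfinitePlace K) (a b : K × K) (M : ℕ) (s t : 𝓞 K) (Y : ℝ)
    (h1 : w (s : K) ≤ Y) (h2 : 2 ^ M * w (t : K) ≤ Y) :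
    szi w (pt a b M s t) ≤ Y * (szi w a + szi w b) := by
  have key : ∀ p r : K, w p ≤ szi w a → w r ≤ szi w b →
      w ((s : K) * p + 2 ^ M * (t : K) * r) ≤ Y * (szi w a + szi w b) := by
    intro p r hp hr
    refine (w_add_le w _ _).trans ?_
    rw [map_mul, map_mul, map_mul, map_pow, w_two]
    have h3 : w (s : K) * w p ≤ Y * szi w a :=
      mul_le_mul h1 hp (apply_nonneg w _) ((apply_nonneg w _).trans h1)
    have h4 : 2 ^ M * w (t : K) * w r ≤ Y * szi w b :=
      mul_le_mul h2 hr (apply_nonneg w _) ((apply_nonneg w _).trans h1)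
    linarith
  unfold pt
  exact max_le (key _ _ (le_max_left _ _) (le_max_left _ _))
    (key _ _ (le_max_right _ _) (le_max_right _ _))

lemma finite_log_sz {x : K × K} (hx : x ≠ 0) :
    (Function.support fun v : HeightOneSpectrum (𝓞 K) => Real.log (sz v x)).Finite := by
  refine (finite_sz_ne_one hx).subset fun v hv hv' => ?_
  rw [Function.mem_support] at hv
  exact hv (by rw [hv', Real.log_one])

lemma sum_mult_real :
    ∑ w : InfinitePlace K, (w.mult : ℝ) = (Module.finrank ℚ K : ℝ) := by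
  rw [← InfinitePlace.sum_mult_eq (K := K)]
  push_cast
  rfl

theorem pt_ht (a b : K × K) (hab : wedge a b ≠ 0) :
    ∃ C : ℝ, 0 ≤ C ∧ ∀ (M : ℕ) (s t : 𝓞 K) (Y : ℝ), 1 ≤ Y → s ≠ 0 → t ≠ 0 →
      (∀ w : InfinitePlace K, w (s : K) ≤ Y) → (∀ w : InfinitePlace K, 2 ^ M * w (t : K) ≤ Y) →
      ht (pt a b M s t) ≤ Real.log Y + C := by
  have hd : (0:ℝ) < Module.finrank ℚ K := by exact_mod_cast finrank_pos'
  have ha := wedge_left_ne hab
  have hb := wedge_right_ne hab
  set C₁ : ℝ := ∑ w : InfinitePlace K, (w.mult : ℝ) * Real.log (szi w a + szi w b) +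
    ∑ᶠ v : HeightOneSpectrum (𝓞 K), Real.log (max (sz v a) (sz v b)) with hC₁
  refine ⟨|C₁| / (Module.finrank ℚ K : ℝ), by positivity, ?_⟩
  intro M s t Y hY hs ht0 hws hwt
  have hx := pt_ne_zero hab M t hs
  have hY0 : 0 < Y := by linarith
  have hmain : hh (pt a b M s t) ≤ (Module.finrank ℚ K : ℝ) * Real.log Y + C₁ := by
    have h1 : ∑ w : InfinitePlace K, (w.mult : ℝ) * Real.log (szi w (pt a b M s t)) ≤
        (Module.finrank ℚ K : ℝ) * Real.log Y +
          ∑ w : InfinitePlace K, (w.mult : ℝ) * Real.log (szi w a + szi w b) := by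
      rw [← sum_mult_real (K := K), Finset.sum_mul, ← Finset.sum_add_distrib]
      refine Finset.sum_le_sum fun w _ => ?_
      rw [← mul_add]
      refine mul_le_mul_of_nonneg_left ?_ (Nat.cast_nonneg _)
      have hsa := szi_pos w ha
      have hsb := szi_pos w hb
      rw [← Real.log_mul hY0.ne' (by positivity)]
      exact Real.log_le_log (szi_pos w hx) (szi_pt_le w a b M s t Y (hws w) (hwt w))
    have h2 : ∑ᶠ v : HeightOneSpectrum (𝓞 K), Real.log (sz v (pt a b M s t)) ≤
        ∑ᶠ v : HeightOneSpectrum (𝓞 K), Real.log (max (sz v a) (sz v b)) := by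
      refine finsum_le_finsum' (finite_log_sz hx) ?_ ?_
      · refine ((finite_sz_ne_one ha).union (finite_sz_ne_one hb)).subset ?_
        intro v hv
        by_contra hc
        rw [Set.mem_union, not_or] at hc
        have h3 : sz v a = 1 := by by_contra h; exact hc.1 h
        have h4 : sz v b = 1 := by by_contra h; exact hc.2 h
        rw [Function.mem_support] at hv
        apply hv
        rw [h3, h4, max_self, Real.log_one]
      · intro v
        exact Real.log_le_log (sz_pos v hx) (sz_pt_le v a b M s t)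
    unfold hh
    rw [hC₁]
    linarith
  rw [ht_eq, div_le_iff₀ hd]
  have h3 : (Real.log Y + |C₁| / (Module.finrank ℚ K : ℝ)) * (Module.finrank ℚ K : ℝ) =
      (Module.finrank ℚ K : ℝ) * Real.log Y + |C₁| := by
    field_simp
  rw [h3]
  linarith [le_abs_self C₁]

/-- The sum of the untruncated local heights is at most the height plus a constant. -/
lemma finsum_lamf_le {a x : K × K} (h : wedge x a ≠ 0) :
    ∑ᶠ v : HeightOneSpectrum (𝓞 K), lamf v a x ≤
      hh x + (hh a + (Module.finrank ℚ K : ℝ) * Real.log 2) := by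
  have h1 := first_main h
  have h2 : ∑ᶠ v : HeightOneSpectrum (𝓞 K), lamf v a x =
      ∑ᶠ v : HeightOneSpectrum (𝓞 K), (ef v a x : ℝ) * Real.log (nv v) :=
    finsum_congr fun v => lamf_eq v h
  have h3 : -((Module.finrank ℚ K : ℝ) * Real.log 2) ≤
      ∑ w : InfinitePlace K, (w.mult : ℝ) * lami w a x := by
    rw [← sum_mult_real (K := K), Finset.sum_mul, ← Finset.sum_neg_distrib]
    refine Finset.sum_le_sum fun w _ => ?_
    have h4 := mul_le_mul_of_nonneg_left (lami_ge w h) (Nat.cast_nonneg (α := ℝ) w.mult)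
    linarith
  rw [h2]
  linarith

lemma finite_lamf {a x : K × K} (h : wedge x a ≠ 0) :
    (Function.support fun v : HeightOneSpectrum (𝓞 K) => lamf v a x).Finite := by
  refine (finite_ef_ne_zero h).subset fun v hv hv' => ?_
  rw [Function.mem_support] at hv
  apply hv
  rw [lamf_eq v h, hv']
  simp

theorem pt_trunc (S : Set (HeightOneSpectrum (𝓞 K))) (α : Fin q → K × K)
    (hα : ∀ l m, l ≠ m → wedge (α l) (α m) ≠ 0) (l₀ : Fin q) (b : K × K)
    (hb : wedge (α l₀) b ≠ 0) :
    ∃ C : ℝ, 0 ≤ C ∧ ∀ (M : ℕ) (s t s' : 𝓞 K), s = 1 + 2 * s' → s ≠ 0 → t ≠ 0 →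
      (∀ l, wedge (pt (α l₀) b M s t) (α l) ≠ 0) →
      trunc S α (pt (α l₀) b M s t) ≤
        (q : ℝ) * ht (pt (α l₀) b M s t) - (M : ℝ) * Real.log 2 + C := by
  classical
  have hd : (0:ℝ) < Module.finrank ℚ K := by exact_mod_cast finrank_pos'
  set d : ℝ := (Module.finrank ℚ K : ℝ) with hdd
  have ha0 := wedge_left_ne hb
  have hb0 := wedge_right_ne hb
  have h20 : (2 : K) ≠ 0 := two_ne_zero
  set T : Finset (HeightOneSpectrum (𝓞 K)) := (finite_fa_ne_one h20).toFinset with hT
  have hmemT : ∀ v, v ∈ T ↔ fa v (2 : K) ≠ 1 := by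
    intro v; rw [hT, Set.Finite.mem_toFinset]; rfl
  -- the product formula for `2`
  have hpf2 : ∑ v ∈ T, Real.log (fa v (2 : K)) = - (d * Real.log 2) := by
    have h1 := product_formula h20
    have h2 : ∑ᶠ v : HeightOneSpectrum (𝓞 K), Real.log (fa v (2 : K)) =
        ∑ v ∈ T, Real.log (fa v (2 : K)) := by
      refine finsum_eq_sum_of_support_subset _ ?_
      intro v hv
      rw [Finset.mem_coe, hmemT]
      intro h
      rw [Function.mem_support] at hv
      exact hv (by rw [h, Real.log_one])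
    have h3 : ∑ w : InfinitePlace K, (w.mult : ℝ) * Real.log (w (2 : K)) = d * Real.log 2 := by
      rw [hdd, ← sum_mult_real (K := K), Finset.sum_mul]
      exact Finset.sum_congr rfl fun w _ => by rw [w_two]
    rw [h2, h3] at h1
    linarith
  set C₁ : ℝ := ∑ l, (hh (α l) + d * Real.log 2) + ∑ v ∈ T, Real.log (nv v) -
    ∑ v ∈ T, Real.log (sz v (α l₀) / sz v b) with hC₁
  refine ⟨|C₁| / d, by positivity, ?_⟩
  intro M s t s' hss hs ht0 hx
  set x := pt (α l₀) b M s t with hxdef
  have hx0 : x ≠ 0 := wedge_left_ne (hx l₀)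
  -- lower bound of the local heights above `2`
  have hlow : (M : ℝ) * (d * Real.log 2) + ∑ v ∈ T, Real.log (sz v (α l₀) / sz v b) ≤
      ∑ v ∈ T, lamf v (α l₀) x := by
    have h1 : (M : ℝ) * (d * Real.log 2) = ∑ v ∈ T, (-(M : ℝ) * Real.log (fa v (2 : K))) := by
      rw [← Finset.mul_sum, hpf2]; ring
    rw [h1, ← Finset.sum_add_distrib]
    refine Finset.sum_le_sum fun v hv => ?_
    have hv2 : fa v (2 : K) < 1 := lt_of_le_of_ne (fa_two_le_one v) ((hmemT v).mp hv)
    have hv20 : 0 < fa v (2 : K) := fa_pos v h20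
    have hfs : fa v (s : K) = 1 := by
      have h2 : (s : K) = 2 * (s' : K) + 1 := by
        have h22 : algebraMap (𝓞 K) K 2 = 2 := map_ofNat _ 2
        have h23 : algebraMap (𝓞 K) K s = 2 * algebraMap (𝓞 K) K s' + 1 := by
          rw [hss, map_add, map_mul, map_one, h22]
          ring
        exact h23
      have h3 : fa v (2 * (s' : K)) < fa v (1 : K) := by
        rw [fa_mul, fa_one]
        calc fa v (2 : K) * fa v (s' : K) ≤ fa v (2 : K) * 1 :=
              mul_le_mul_of_nonneg_left (fa_int_le_one v s') hv20.le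
          _ < 1 := by rw [mul_one]; exact hv2
      rw [h2, fa_add_eq_right v h3, fa_one]
    have hW : 0 < fa v (wedge (α l₀) b) := fa_pos v hb
    have hWs : fa v (wedge b (α l₀)) = fa v (wedge (α l₀) b) := by
      rw [wedge_swap, fa_neg]
    have hsza := sz_pos v ha0
    have hszb := sz_pos v hb0
    have hszx := sz_pos v hx0
    have h4 : fa v (wedge (α l₀) b) ≤ sz v x * sz v b := by
      have h5 := fa_wedge_le v x b
      rw [hxdef, wedge_pt_right, fa_mul, hfs, one_mul] at h5
      exact h5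
    have h6 : fa v (wedge x (α l₀)) ≤ fa v (2 : K) ^ M * fa v (wedge (α l₀) b) := by
      rw [hxdef, wedge_pt_left, fa_mul, fa_mul, fa_pow, hWs]
      refine mul_le_mul_of_nonneg_right ?_ hW.le
      calc fa v (2 : K) ^ M * fa v (t : K) ≤ fa v (2 : K) ^ M * 1 :=
            mul_le_mul_of_nonneg_left (fa_int_le_one v t) (pow_nonneg hv20.le _)
        _ = _ := mul_one _
    have h7 : 0 < fa v (wedge x (α l₀)) := fa_pos v (hx l₀)
    have h8 : sz v (α l₀) / sz v b / fa v (2 : K) ^ M ≤
        sz v x * sz v (α l₀) / fa v (wedge x (α l₀)) := by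
      rw [div_div, div_le_div_iff₀ (by positivity) h7]
      calc sz v (α l₀) * fa v (wedge x (α l₀)) ≤
            sz v (α l₀) * (fa v (2 : K) ^ M * fa v (wedge (α l₀) b)) :=
            mul_le_mul_of_nonneg_left h6 hsza.le
        _ ≤ sz v (α l₀) * (fa v (2 : K) ^ M * (sz v x * sz v b)) := by
            refine mul_le_mul_of_nonneg_left ?_ hsza.le
            exact mul_le_mul_of_nonneg_left h4 (by positivity)
        _ = _ := by ring
    have h9 := Real.log_le_log (by positivity) h8
    rw [Real.log_div (by positivity) (by positivity), Real.log_pow] at h9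
    unfold lamf
    linarith
  -- the truncated sum
  set g : HeightOneSpectrum (𝓞 K) → ℝ := fun v =>
    ∑ᶠ (_ : v ∉ S), ∑ l : Fin q, min (lamf v (α l) x / d) (Real.log (nv v) / d) with hg
  have htr : trunc S α x = ∑ᶠ v, g v := rfl
  have hterm : ∀ v, ∀ l, 0 ≤ min (lamf v (α l) x / d) (Real.log (nv v) / d) := by
    intro v l
    apply le_min
    · exact div_nonneg (lamf_nonneg v (hx l)) hd.le
    · exact div_nonneg (log_nv_pos v).le hd.le
  set F : HeightOneSpectrum (𝓞 K) → ℝ := fun v => ∑ l : Fin q, lamf v (α l) x / d with hF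
  set G : HeightOneSpectrum (𝓞 K) → ℝ := fun v =>
    if v ∈ T then lamf v (α l₀) x / d - Real.log (nv v) / d else 0 with hG
  have hgle : ∀ v, g v ≤ F v - G v := by
    intro v
    have h1 : g v ≤ ∑ l : Fin q, min (lamf v (α l) x / d) (Real.log (nv v) / d) := by
      simp only [hg]
      rw [finsum_eq_if]
      by_cases h : v ∈ S
      · rw [if_neg (not_not.mpr h)]
        exact Finset.sum_nonneg fun l _ => hterm v l
      · rw [if_pos h]
    refine h1.trans ?_
    simp only [hF, hG]
    split_ifs with h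
    · rw [← Finset.add_sum_erase _ _ (Finset.mem_univ l₀),
        ← Finset.add_sum_erase (Finset.univ) (fun l => lamf v (α l) x / d) (Finset.mem_univ l₀)]
      have h2 : ∑ l ∈ Finset.univ.erase l₀, min (lamf v (α l) x / d) (Real.log (nv v) / d) ≤
          ∑ l ∈ Finset.univ.erase l₀, lamf v (α l) x / d :=
        Finset.sum_le_sum fun l _ => min_le_left _ _
      have h3 : min (lamf v (α l₀) x / d) (Real.log (nv v) / d) ≤ Real.log (nv v) / d :=
        min_le_right _ _
      linarith
    · rw [sub_zero]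
      exact Finset.sum_le_sum fun l _ => min_le_left _ _
  have hFl : ∀ l, (Function.support fun v : HeightOneSpectrum (𝓞 K) =>
      lamf v (α l) x / d).Finite := by
    intro l
    refine (finite_lamf (hx l)).subset fun v hv hv' => ?_
    rw [Function.mem_support] at hv
    have hv2 : lamf v (α l) x = 0 := hv'
    exact hv (by rw [hv2, zero_div])
  have hFsupp : (Function.support F).Finite := by
    refine (Set.finite_iUnion fun l => hFl l).subset ?_
    intro v hv
    rw [Function.mem_support] at hv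
    by_contra hc
    apply hv
    simp only [hF]
    refine Finset.sum_eq_zero fun l _ => ?_
    by_contra hne
    exact hc (Set.mem_iUnion.mpr ⟨l, hne⟩)
  have hGsub : Function.support G ⊆ (T : Set (HeightOneSpectrum (𝓞 K))) := by
    intro v hv
    rw [Function.mem_support] at hv
    by_contra hc
    apply hv
    simp only [hG]
    rw [if_neg]
    exact fun h => hc (Finset.mem_coe.mpr h)
  have hGsupp : (Function.support G).Finite := T.finite_toSet.subset hGsub
  have hgsupp : (Function.support g).Finite := by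
    refine (Set.finite_iUnion fun l => hFl l).subset ?_
    intro v hv
    rw [Function.mem_support] at hv
    by_contra hc
    apply hv
    simp only [hg]
    rw [finsum_eq_if]
    by_cases h : v ∈ S
    · rw [if_neg (not_not.mpr h)]
    · rw [if_pos h]
      refine Finset.sum_eq_zero fun l _ => ?_
      have h1 : lamf v (α l) x / d = 0 := by
        by_contra hne
        exact hc (Set.mem_iUnion.mpr ⟨l, hne⟩)
      rw [h1]
      exact min_eq_left (div_nonneg (log_nv_pos v).le hd.le)
  have hsum1 : ∑ᶠ v, g v ≤ ∑ᶠ v, F v - ∑ᶠ v, G v := by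
    rw [← finsum_sub_distrib hFsupp hGsupp]
    refine finsum_le_finsum' hgsupp ?_ hgle
    exact (hFsupp.union hGsupp).subset (Function.support_sub F G)
  have hsumG : ∑ᶠ v, G v = (∑ v ∈ T, lamf v (α l₀) x - ∑ v ∈ T, Real.log (nv v)) / d := by
    rw [finsum_eq_sum_of_support_subset _ hGsub, ← Finset.sum_sub_distrib, Finset.sum_div]
    refine Finset.sum_congr rfl fun v hv => ?_
    simp only [hG]
    rw [if_pos hv, sub_div]
  have hsumF : ∑ᶠ v, F v ≤ ((q : ℝ) * hh x + ∑ l, (hh (α l) + d * Real.log 2)) / d := by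
    have h1 : ∑ᶠ v, F v = ∑ l, ∑ᶠ v, lamf v (α l) x / d := by
      simp only [hF]
      exact finsum_sum_comm Finset.univ (fun v l => lamf v (α l) x / d) (fun l _ => hFl l)
    have h2 : ∀ l, ∑ᶠ v, lamf v (α l) x / d = (∑ᶠ v, lamf v (α l) x) / d := by
      intro l
      rw [div_eq_mul_inv, finsum_mul]
      exact finsum_congr fun v => div_eq_mul_inv _ _
    rw [h1, Finset.sum_congr rfl fun l _ => h2 l, ← Finset.sum_div]
    refine div_le_div_of_nonneg_right ?_ hd.le
    calc ∑ l, ∑ᶠ v, lamf v (α l) x ≤ ∑ l : Fin q, (hh x + (hh (α l) + d * Real.log 2)) :=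
          Finset.sum_le_sum fun l _ => finsum_lamf_le (hx l)
      _ = _ := by
          rw [Finset.sum_add_distrib, Finset.sum_const, Finset.card_univ, Fintype.card_fin,
            nsmul_eq_mul]
  rw [htr]
  refine hsum1.trans ?_
  rw [hsumG]
  have hfin : ((q : ℝ) * hh x + ∑ l, (hh (α l) + d * Real.log 2)) / d -
      (∑ v ∈ T, lamf v (α l₀) x - ∑ v ∈ T, Real.log (nv v)) / d ≤
      (q : ℝ) * ht x - (M : ℝ) * Real.log 2 + |C₁| / d := by
    rw [← sub_div, div_le_iff₀ hd, ht_eq, ← hdd]
    have h1 : ((q : ℝ) * (hh x / d) - (M : ℝ) * Real.log 2 + |C₁| / d) * d =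
        (q : ℝ) * hh x - (M : ℝ) * (d * Real.log 2) + |C₁| := by
      field_simp
    rw [h1]
    have h2 := le_abs_self C₁
    rw [hC₁] at h2 ⊢
    linarith
  linarith

end Pool.Agent.Lib.MP_4d5ce1_nt
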