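import Mathlib
import Pool.Agent.Lib.MP_4d5ce1_nt.LB.Point
import Pool.Agent.Lib.MP_4d5ce1_nt.Count
import Pool.Agent.Lib.MP_44a246_nt.NT.Units
import Pool.Agent.Lib.MP_44a246_nt.NT.Heights

section

set_option autoImplicit false

open NumberField IsDedekindDomain

namespace Pool.Agent.Lib.MP_4d5ce1_nt

/-! ## LB-1 : algebraic integers in a box -/

theorem box_lower (K : Type*) [Field K] [NumberField K] :
    ∃ c Z₀ : ℝ, 0 < c ∧ 1 ≤ Z₀ ∧ ∀ Z : ℝ, Z₀ ≤ Z → ∃ T : Finset (𝓞 K),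
      (∀ a ∈ T, a ≠ 0) ∧ (∀ a ∈ T, ∀ w : InfinitePlace K, w (a : K) ≤ Z) ∧
      (c * Z) ^ (Module.finrank ℚ K) ≤ (T.card : ℝ) := by
  classical
  set b := RingOfIntegers.basis K with hb
  set A : ℝ := 1 + ∑ w : InfinitePlace K, ∑ i, w ((b i : 𝓞 K) : K) with hA
  have hnn : ∀ w : InfinitePlace K, 0 ≤ ∑ i, w ((b i : 𝓞 K) : K) := fun w =>
    Finset.sum_nonneg fun i _ => apply_nonneg w _
  have hA1 : 1 ≤ A := by
    have : 0 ≤ ∑ w : InfinitePlace K, ∑ i, w ((b i : 𝓞 K) : K) :=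
      Finset.sum_nonneg fun w _ => hnn w
    linarith
  have hAw : ∀ w : InfinitePlace K, ∑ i, w ((b i : 𝓞 K) : K) ≤ A := by
    intro w
    have := Finset.single_le_sum (f := fun w : InfinitePlace K => ∑ i, w ((b i : 𝓞 K) : K))
      (fun w _ => hnn w) (Finset.mem_univ w)
    have h' : ∑ i, w ((b i : 𝓞 K) : K) ≤ ∑ w : InfinitePlace K, ∑ i, w ((b i : 𝓞 K) : K) := this
    linarith
  have hA0 : 0 < A := by linarith
  refine ⟨1 / (2 * A), 2 * A, by positivity, by linarith, fun Z hZ => ?_⟩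
  set N : ℕ := ⌊Z / A⌋₊ with hN
  have hZ0 : 0 ≤ Z := by linarith
  have hNle : (N : ℝ) ≤ Z / A := Nat.floor_le (by positivity)
  have hNge : 1 / (2 * A) * Z ≤ (N : ℝ) := by
    have h1 : Z / A < N + 1 := Nat.lt_floor_add_one _
    have h2 : 2 ≤ Z / A := by
      rw [le_div_iff₀ hA0]; exact hZ
    have h3 : 1 / (2 * A) * Z = Z / A / 2 := by
      field_simp
    rw [h3]
    linarith
  set F : (Module.Free.ChooseBasisIndex ℤ (𝓞 K) → ℤ) → 𝓞 K := fun n => b.equivFun.symm n with hF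
  set box : Finset (Module.Free.ChooseBasisIndex ℤ (𝓞 K) → ℤ) :=
    Fintype.piFinset (fun _ => Finset.Icc (1 : ℤ) (N : ℤ)) with hbox
  have hFinj : Function.Injective F := b.equivFun.symm.injective
  have hcard : Fintype.card (Module.Free.ChooseBasisIndex ℤ (𝓞 K)) = Module.finrank ℚ K := by
    rw [← Module.finrank_eq_card_chooseBasisIndex, RingOfIntegers.rank]
  have hne : Nonempty (Module.Free.ChooseBasisIndex ℤ (𝓞 K)) := by
    rw [← Fintype.card_pos_iff, hcard]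
    exact Module.finrank_pos
  refine ⟨box.image F, ?_, ?_, ?_⟩
  · intro a ha h0
    obtain ⟨n, hn, rfl⟩ := Finset.mem_image.1 ha
    obtain ⟨i⟩ := hne
    have h1 := (Fintype.mem_piFinset.1 hn) i
    rw [Finset.mem_Icc] at h1
    have h2 : n = 0 := by
      have := (LinearEquiv.map_eq_zero_iff b.equivFun.symm).1 h0
      exact this
    rw [h2] at h1
    simp at h1
  · intro a ha w
    obtain ⟨n, hn, rfl⟩ := Finset.mem_image.1 ha
    have h1 : ((F n : 𝓞 K) : K) = ∑ i, (n i : K) * ((b i : 𝓞 K) : K) := by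
      simp only [hF, Module.Basis.equivFun_symm_apply]
      have h2 : ((∑ i, n i • b i : 𝓞 K) : K) = algebraMap (𝓞 K) K (∑ i, n i • b i) := rfl
      rw [h2, map_sum]
      refine Finset.sum_congr rfl fun i _ => ?_
      rw [zsmul_eq_mul, map_mul, map_intCast]
    rw [h1]
    calc w (∑ i, (n i : K) * ((b i : 𝓞 K) : K))
        ≤ ∑ i, w ((n i : K) * ((b i : 𝓞 K) : K)) := by
          exact AbsoluteValue.sum_le w.1 _ _
      _ ≤ ∑ i, (N : ℝ) * w ((b i : 𝓞 K) : K) := by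
          refine Finset.sum_le_sum fun i _ => ?_
          rw [map_mul]
          refine mul_le_mul_of_nonneg_right ?_ (apply_nonneg w _)
          have h2 := (Fintype.mem_piFinset.1 hn) i
          rw [Finset.mem_Icc] at h2
          have h3 : w ((n i : ℤ) : K) = |((n i : ℤ) : ℝ)| := by
            rw [← InfinitePlace.norm_embedding_eq w, map_intCast, Complex.norm_intCast]
          rw [h3, abs_of_nonneg (by exact_mod_cast (by linarith : (0 : ℤ) ≤ n i))]
          exact_mod_cast h2.2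
      _ = (N : ℝ) * ∑ i, w ((b i : 𝓞 K) : K) := by rw [Finset.mul_sum]
      _ ≤ (N : ℝ) * A := by
          exact mul_le_mul_of_nonneg_left (hAw w) (Nat.cast_nonneg _)
      _ ≤ Z := by
          rw [← le_div_iff₀ hA0]; exact hNle
  · rw [Finset.card_image_of_injective _ hFinj, hbox, Fintype.card_piFinset]
    simp only [Int.card_Icc, add_sub_cancel_right, Int.toNat_natCast, Finset.prod_const,
      Finset.card_univ, hcard, Nat.cast_pow]
    exact pow_le_pow_left₀ (by positivity) hNge _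

end Pool.Agent.Lib.MP_4d5ce1_nt
end

section

/-!
Auxiliary results for the lower bound: selection of pairwise non-proportional points, heights of
integral elements and the final growth estimate.
-/

set_option autoImplicit false
set_option linter.unusedSectionVars false

open NumberField IsDedekindDomain Height

namespace Pool.Agent.Lib.MP_4d5ce1_nt

variable {K : Type*} [Field K] [NumberField K] {q : ℕ}

/-- Integral elements have no finite part in their height. -/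
theorem logHeight_integral_le (a : 𝓞 K) (B : ℝ) (hB : 1 ≤ B)
    (h : ∀ w : InfinitePlace K, w (a : K) ≤ B) :
    logHeight₁ (a : K) ≤ (Module.finrank ℚ K : ℝ) * Real.log B := by
  rw [NumberField.logHeight₁_eq]
  have h1 : ∑ᶠ v : FinitePlace K, Real.posLog (v (a : K)) = 0 := by
    rw [← finsum_comp_equiv (FinitePlace.equivHeightOneSpectrum (K := K)).symm]
    refine (finsum_congr fun v => ?_).trans finsum_zero
    have h2 : (FinitePlace.equivHeightOneSpectrum.symm v : FinitePlace K) (a : K) = fa v (a : K) :=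
      rfl
    rw [h2, Real.posLog_eq_log_max_one (fa_nonneg v _), max_eq_left (fa_int_le_one v a),
      Real.log_one]
  rw [h1, add_zero, ← InfinitePlace.sum_mult_eq, Nat.cast_sum, Finset.sum_mul]
  refine Finset.sum_le_sum fun w _ => mul_le_mul_of_nonneg_left ?_ (Nat.cast_nonneg _)
  rw [Real.posLog_eq_log_max_one (apply_nonneg w _)]
  exact Real.log_le_log (by positivity) (max_le hB (h w))

theorem wedge_self (x : K × K) : wedge x x = 0 := by
  unfold wedge; ring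

theorem wedge_zero_of {x y a : K × K} (ha : a ≠ 0) (hx : wedge x a = 0) (hy : wedge y a = 0) :
    wedge x y = 0 := by
  rcases pair_ne_zero ha with h | h
  · have h1 := three_term1 x y a
    rw [hx, hy, zero_mul, zero_mul, sub_zero] at h1
    exact (mul_eq_zero.1 h1).resolve_right h
  · have h1 := three_term2 x y a
    rw [hx, hy, zero_mul, zero_mul, sub_zero] at h1
    exact (mul_eq_zero.1 h1).resolve_right h

open Classical in
/-- Selection of pairwise non-proportional points away from the `α l`. -/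
theorem select_points {σ : Type*} (T : Finset σ) (p : σ → K × K) (r : σ → K)
    (hr : ∀ x ∈ T, ∀ y ∈ T, r x ≠ r y → wedge (p x) (p y) ≠ 0)
    (α : Fin q → K × K) (hα0 : ∀ l, α l ≠ 0) :
    ∃ X : Finset (K × K), (∀ x ∈ X, ∃ s ∈ T, x = p s) ∧ (∀ x ∈ X, ∀ l, wedge x (α l) ≠ 0) ∧
      (∀ x ∈ X, ∀ y ∈ X, x ≠ y → wedge x y ≠ 0) ∧
      (T.image r).card ≤ X.card + q := by
  have hrep : ∀ ρ : {ρ // ρ ∈ T.image r}, ∃ s : σ, s ∈ T ∧ r s = ρ := by
    rintro ⟨ρ, h⟩
    obtain ⟨s, hs, hs2⟩ := Finset.mem_image.1 h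
    exact ⟨s, hs, hs2⟩
  choose rep hrepT hrepr using hrep
  set X₁ : Finset (K × K) := (T.image r).attach.image (fun ρ => p (rep ρ)) with hX₁
  have hpw : ∀ x ∈ X₁, ∀ y ∈ X₁, x ≠ y → wedge x y ≠ 0 := by
    intro x hx y hy hxy
    obtain ⟨ρ, _, rfl⟩ := Finset.mem_image.1 hx
    obtain ⟨ρ', _, rfl⟩ := Finset.mem_image.1 hy
    refine hr _ (hrepT ρ) _ (hrepT ρ') ?_
    rw [hrepr, hrepr]
    intro h
    exact hxy (by rw [Subtype.ext h])
  have hcard : X₁.card = (T.image r).card := by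
    rw [hX₁, Finset.card_image_of_injective, Finset.card_attach]
    intro ρ ρ' h
    by_contra hne
    have h1 := hr _ (hrepT ρ) _ (hrepT ρ') (by
      rw [hrepr, hrepr]
      exact fun h2 => hne (Subtype.ext h2))
    have h2 : p (rep ρ) = p (rep ρ') := h
    rw [h2] at h1
    exact h1 (wedge_self _)
  refine ⟨X₁.filter (fun x => ∀ l, wedge x (α l) ≠ 0), ?_, ?_, ?_, ?_⟩
  · intro x hx
    obtain ⟨ρ, _, rfl⟩ := Finset.mem_image.1 (Finset.mem_filter.1 hx).1
    exact ⟨_, hrepT ρ, rfl⟩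
  · intro x hx
    exact (Finset.mem_filter.1 hx).2
  · intro x hx y hy
    exact hpw x (Finset.mem_filter.1 hx).1 y (Finset.mem_filter.1 hy).1
  · rw [← hcard, ← Finset.card_filter_add_card_filter_not (s := X₁)
      (fun x => ∀ l, wedge x (α l) ≠ 0)]
    refine Nat.add_le_add_left ?_ _
    have hsub : X₁.filter (fun x => ¬ ∀ l, wedge x (α l) ≠ 0) ⊆
        (Finset.univ : Finset (Fin q)).biUnion
          (fun l => X₁.filter (fun x => wedge x (α l) = 0)) := by
      intro x hx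
      rw [Finset.mem_filter] at hx
      obtain ⟨hx1, hx2⟩ := hx
      push Not at hx2
      obtain ⟨l, hl⟩ := hx2
      exact Finset.mem_biUnion.2 ⟨l, Finset.mem_univ _, Finset.mem_filter.2 ⟨hx1, hl⟩⟩
    refine (Finset.card_le_card hsub).trans (Finset.card_biUnion_le.trans ?_)
    have h1 : ∀ l ∈ (Finset.univ : Finset (Fin q)),
        (X₁.filter (fun x => wedge x (α l) = 0)).card ≤ 1 := by
      intro l _
      rw [Finset.card_le_one]
      intro x hx y hy
      rw [Finset.mem_filter] at hx hy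
      by_contra hne
      exact hpw x hx.1 y hy.1 hne (wedge_zero_of (hα0 l) hx.2 hy.2)
    refine (Finset.sum_le_sum h1).trans ?_
    simp

end Pool.Agent.Lib.MP_4d5ce1_nt
end

section

/-!
# Number of ratios of algebraic integers of bounded height
-/

set_option autoImplicit false

open NumberField IsDedekindDomain Height
open Pool.Agent.Lib.MP_44a246_nt.NT (ideal_count unit_count sum_lnv_le sum_abs_ordv_le)

namespace Pool.Agent.Lib.MP_4d5ce1_nt

lemma ordv_int_nonneg {K : Type*} [Field K] [NumberField K] (v : HeightOneSpectrum (𝓞 K))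
    {a : 𝓞 K} (ha : a ≠ 0) : 0 ≤ ordv v (a : K) := by
  have h0 : (a : K) ≠ 0 := by exact_mod_cast ha
  rw [← fa_le_one_iff v h0]
  have h := (fa_int_le_iff_mem v 0 a).2 (by simp)
  simpa using h

open Classical in
/-- Cauchy-Schwarz for the size of the image of a map. -/
lemma card_sq_le_image {α β : Type*} (s : Finset α) (f : α → β) :
    (s.card : ℝ) ^ 2 ≤ ((s.image f).card : ℝ) *
      (((s ×ˢ s).filter (fun p : α × α => f p.1 = f p.2)).card : ℝ) := by
  have h1 : (s.card : ℝ) = ∑ b ∈ s.image f, ((s.filter (fun a => f a = b)).card : ℝ) := by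
    rw [Finset.card_eq_sum_card_image f s]
    push_cast
    rfl
  have h2 : (((s ×ˢ s).filter (fun p : α × α => f p.1 = f p.2)).card : ℝ) =
      ∑ b ∈ s.image f, ((s.filter (fun a => f a = b)).card : ℝ) ^ 2 := by
    have h3 : ((s ×ˢ s).filter (fun p : α × α => f p.1 = f p.2)).card =
        ∑ b ∈ s.image f, (s.filter (fun a => f a = b)).card ^ 2 := by
      rw [Finset.card_eq_sum_card_fiberwise (f := fun p : α × α => f p.1) (t := s.image f)]
      · refine Finset.sum_congr rfl fun b _ => ?_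
        rw [sq, ← Finset.card_product]
        congr 1
        ext ⟨x, y⟩
        simp only [Finset.mem_filter, Finset.mem_product]
        constructor
        · rintro ⟨⟨⟨hx, hy⟩, hxy⟩, hb⟩
          exact ⟨⟨hx, hb⟩, hy, hxy ▸ hb⟩
        · rintro ⟨⟨hx, hb⟩, hy, hb'⟩
          exact ⟨⟨⟨hx, hy⟩, hb.trans hb'.symm⟩, hb⟩
      · intro p hp
        have hp' := Finset.mem_coe.1 hp
        rw [Finset.mem_filter, Finset.mem_product] at hp'
        exact Finset.mem_coe.2 (Finset.mem_image_of_mem _ hp'.1.1)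
    rw [h3]
    push_cast
    rfl
  rw [h1, h2]
  exact sq_sum_le_card_mul_sum_sq

open Classical in
theorem ratio_count (K : Type*) [Field K] [NumberField K] (A₀ η : ℝ) (hA₀ : 0 ≤ A₀)
    (hη : 0 < η) :
    ∃ C : ℝ, 0 < C ∧ ∀ β : ℝ, 0 ≤ β → ∀ P Q : Finset (𝓞 K),
      (∀ a ∈ P, a ≠ 0) → (∀ a ∈ Q, a ≠ 0) →
      (∀ a ∈ P, logHeight₁ (a : K) ≤ A₀ * (β + 1)) → (∀ a ∈ Q, logHeight₁ (a : K) ≤ A₀ * (β + 1)) →
      (P.card : ℝ) * (Q.card : ℝ) ≤ C * Real.exp (η * β) *
        ((((P ×ˢ Q).image (fun p : 𝓞 K × 𝓞 K => (p.2 : K) / (p.1 : K))).card : ℕ) : ℝ) := by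
  obtain ⟨C₁, hC₁, h₁⟩ := ideal_count K 2 (η / (A₀ + 1)) (by norm_num) (by positivity)
  refine ⟨C₁ * Real.exp η, by positivity, fun β hβ P Q hP0 hQ0 hP hQ => ?_⟩
  set f : 𝓞 K × 𝓞 K → K := fun p => (p.2 : K) / (p.1 : K) with hf
  set s : Finset (𝓞 K × 𝓞 K) := P ×ˢ Q with hs
  set E := (s ×ˢ s).filter (fun p => f p.1 = f p.2) with hE
  have hcs := card_sq_le_image s f
  -- the number of quadruples
  have hEle : (E.card : ℝ) ≤ (s.card : ℝ) * (C₁ * Real.exp η * Real.exp (η * β)) := by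
    have h1 : E.card = ∑ b ∈ s, (E.filter (fun p => (p.1.1, p.2.2) = b)).card := by
      apply Finset.card_eq_sum_card_fiberwise
      intro p hp
      have hp' := Finset.mem_coe.1 hp
      rw [hE, Finset.mem_filter, Finset.mem_product, hs, Finset.mem_product,
        Finset.mem_product] at hp'
      exact Finset.mem_coe.2 (Finset.mem_product.2 ⟨hp'.1.1.1, hp'.1.2.2⟩)
    rw [h1]
    push_cast
    rw [← nsmul_eq_mul]
    apply Finset.sum_le_card_nsmul
    rintro ⟨x, y⟩ hb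
    rw [hs, Finset.mem_product] at hb
    obtain ⟨hx, hy⟩ := hb
    have hx0 : (x : K) ≠ 0 := by exact_mod_cast hP0 x hx
    have hy0 : (y : K) ≠ 0 := by exact_mod_cast hQ0 y hy
    set F := E.filter (fun p => (p.1.1, p.2.2) = (x, y)) with hF
    -- membership
    have hmem : ∀ p ∈ F, p.1.1 = x ∧ p.2.2 = y ∧ p.1.2 ∈ Q ∧ p.2.1 ∈ P ∧
        (p.1.2 : K) * (p.2.1 : K) = (x : K) * (y : K) := by
      intro p hp
      rw [hF, Finset.mem_filter, hE, Finset.mem_filter, Finset.mem_product, hs,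
        Finset.mem_product, Finset.mem_product] at hp
      obtain ⟨⟨⟨⟨ha, hb⟩, hc, hd⟩, hfe⟩, he⟩ := hp
      have he1 : p.1.1 = x := congrArg Prod.fst he
      have he2 : p.2.2 = y := congrArg Prod.snd he
      refine ⟨he1, he2, hb, hc, ?_⟩
      have hc0 : (p.2.1 : K) ≠ 0 := by exact_mod_cast hP0 _ hc
      have ha0 : (p.1.1 : K) ≠ 0 := by exact_mod_cast hP0 _ ha
      simp only [hf] at hfe
      rw [div_eq_div_iff ha0 hc0] at hfe
      rw [hfe, he1, he2]
      ring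
    set g : (𝓞 K × 𝓞 K) × (𝓞 K × 𝓞 K) → K := fun p => (p.1.2 : K) with hg
    have hinj : Set.InjOn g F := by
      intro p hp p' hp' hpp
      obtain ⟨a1, a2, a3, a4, a5⟩ := hmem p hp
      obtain ⟨b1, b2, b3, b4, b5⟩ := hmem p' hp'
      have hpp' : p.1.2 = p'.1.2 := by
        have : (p.1.2 : K) = (p'.1.2 : K) := hpp
        exact_mod_cast this
      have ht0 : (p.1.2 : K) ≠ 0 := by exact_mod_cast hQ0 _ a3
      have h21 : p.2.1 = p'.2.1 := by
        have h : (p.1.2 : K) * (p.2.1 : K) = (p.1.2 : K) * (p'.2.1 : K) := by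
          rw [a5, hpp', b5]
        have h' := mul_left_cancel₀ ht0 h
        exact_mod_cast h'
      apply Prod.ext
      · exact Prod.ext (a1.trans b1.symm) hpp'
      · exact Prod.ext h21 (a2.trans b2.symm)
    have hcard : F.card = (F.image g).card := (Finset.card_image_of_injOn hinj).symm
    have hn0 : ((x : K) * (y : K)) ≠ 0 := mul_ne_zero hx0 hy0
    have hfin := finite_ordv_ne_zero hn0
    set U := hfin.toFinset with hU
    have hnn : ∀ v : HeightOneSpectrum (𝓞 K), 0 ≤ ordv v ((x : K) * (y : K)) := by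
      intro v
      rw [ordv_mul v hx0 hy0]
      exact add_nonneg (ordv_int_nonneg v (hP0 x hx)) (ordv_int_nonneg v (hQ0 y hy))
    have hord : ∀ t ∈ F.image g, ∀ v : HeightOneSpectrum (𝓞 K), v ∉ U → ordv v t = 0 := by
      intro t ht v hv
      obtain ⟨p, hp, rfl⟩ := Finset.mem_image.1 ht
      obtain ⟨a1, a2, a3, a4, a5⟩ := hmem p hp
      have hv0 : ordv v ((x : K) * (y : K)) = 0 := by
        by_contra h
        exact hv (hfin.mem_toFinset.2 h)
      have ht0 : (p.1.2 : K) ≠ 0 := by exact_mod_cast hQ0 _ a3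
      have hs0 : (p.2.1 : K) ≠ 0 := by exact_mod_cast hP0 _ a4
      rw [← a5, ordv_mul v ht0 hs0] at hv0
      have h1 := ordv_int_nonneg v (hQ0 _ a3)
      have h2 := ordv_int_nonneg v (hP0 _ a4)
      show ordv v (p.1.2 : K) = 0
      omega
    have hβ' : 0 ≤ A₀ * (β + 1) := by positivity
    have hsumU : ∑ v ∈ U, lnv v ≤ 2 * (A₀ * (β + 1) + 1) := by
      have h1 := sum_lnv_le ((x : K) * (y : K)) hn0 U (by
        intro v hv
        have hv' : ordv v ((x : K) * (y : K)) ≠ 0 := hfin.mem_toFinset.1 hv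
        exact lt_of_le_of_ne (hnn v) (Ne.symm hv'))
      have h2 := Height.logHeight₁_mul_le (x : K) (y : K)
      have h3 := hP x hx
      have h4 := hQ y hy
      linarith
    have hfinal := h₁ (A₀ * (β + 1)) hβ' U (F.image g) hsumU (by
      intro t ht
      obtain ⟨p, hp, rfl⟩ := Finset.mem_image.1 ht
      obtain ⟨a1, a2, a3, a4, a5⟩ := hmem p hp
      show (p.1.2 : K) ≠ 0
      exact_mod_cast hQ0 _ a3) (by
      intro t ht t' ht' v hv
      rw [hord t ht v hv, hord t' ht' v hv]) (by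
      intro t ht
      obtain ⟨p, hp, rfl⟩ := Finset.mem_image.1 ht
      obtain ⟨a1, a2, a3, a4, a5⟩ := hmem p hp
      exact hQ _ a3)
    rw [hcard]
    refine hfinal.trans ?_
    rw [mul_assoc, ← Real.exp_add]
    apply mul_le_mul_of_nonneg_left _ hC₁.le
    apply Real.exp_le_exp.2
    have hA1 : 0 < A₀ + 1 := by linarith
    rw [div_mul_eq_mul_div, div_le_iff₀ hA1]
    nlinarith [mul_nonneg hη.le hβ, mul_nonneg (mul_nonneg hη.le hβ) hA₀]
  -- conclusion
  have hscard : (s.card : ℝ) = (P.card : ℝ) * (Q.card : ℝ) := by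
    rw [hs, Finset.card_product]
    push_cast
    rfl
  rw [← hscard]
  rcases Nat.eq_zero_or_pos s.card with h0 | hpos
  · rw [h0, Nat.cast_zero]
    positivity
  · have hpos' : (0 : ℝ) < s.card := by exact_mod_cast hpos
    have h2 : (s.card : ℝ) ^ 2 ≤ ((s.image f).card : ℝ) *
        ((s.card : ℝ) * (C₁ * Real.exp η * Real.exp (η * β))) :=
      hcs.trans (mul_le_mul_of_nonneg_left hEle (Nat.cast_nonneg _))
    have h3 : (s.card : ℝ) * (s.card : ℝ) ≤ (s.card : ℝ) *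
        (C₁ * Real.exp η * Real.exp (η * β) * ((s.image f).card : ℝ)) := by
      calc (s.card : ℝ) * (s.card : ℝ) = (s.card : ℝ) ^ 2 := by ring
        _ ≤ _ := h2
        _ = _ := by ring
    exact le_of_mul_le_mul_left h3 hpos'

end Pool.Agent.Lib.MP_4d5ce1_nt
end

section

/-!
The lower bound for the exceptional set.
-/

set_option autoImplicit false
set_option linter.unusedSectionVars false

open NumberField IsDedekindDomain Height Filter

namespace Pool.Agent.Lib.MP_4d5ce1_nt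

variable {K : Type*} [Field K] [NumberField K] {q : ℕ}

theorem wedge_pt_pt (a b : K × K) (M : ℕ) (s t s' t' : 𝓞 K) :
    wedge (pt a b M s t) (pt a b M s' t') =
      2 ^ M * ((s : K) * (t' : K) - (s' : K) * (t : K)) * wedge a b := by
  unfold wedge pt; ring

/-- The growth estimate. -/
theorem growth (d : ℕ) (hd : 1 ≤ d) (D : ℝ) (hD1 : D < 1) (η₀ : ℝ) (hη₀ : 0 < η₀)
    (hη₁ : η₀ ≤ 1) (c₁ c₂ C₂ qq : ℝ) (hc₁ : 0 < c₁) (hc₂ : 0 < c₂) (hC₂ : 0 < C₂) (hqq : 0 ≤ qq) :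
    ∀ᶠ B : ℝ in atTop, ∀ N₁ N₂ R : ℝ, (c₁ * B) ^ d / 2 ≤ N₁ → (c₂ * B ^ (1 - D)) ^ d ≤ N₂ →
      N₁ * N₂ ≤ C₂ * B ^ (η₀ / 2) * R →
        B ^ ((2 - D) * (d : ℝ) - η₀) + qq ≤ R := by
  have hd1 : (1 : ℝ) ≤ (d : ℝ) := by exact_mod_cast hd
  have h2 : Tendsto (fun B : ℝ => (c₁ ^ d / 2 * c₂ ^ d / C₂) * B ^ (η₀ / 2)) atTop atTop :=
    (tendsto_rpow_atTop (by positivity)).const_mul_atTop (by positivity)
  filter_upwards [h2.eventually_ge_atTop (1 + qq), eventually_ge_atTop (1 : ℝ)] with B hB hB1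
  intro N₁ N₂ R hN₁ hN₂ hR
  have hB0 : 0 < B := by linarith
  set E : ℝ := (2 - D) * (d : ℝ) with hE
  have hEd : 1 ≤ E := one_le_mul_of_one_le_of_one_le (by linarith) hd1
  have h3 : (c₁ ^ d / 2 * c₂ ^ d) * B ^ E ≤ N₁ * N₂ := by
    have e1 : B ^ E = B ^ d * (B ^ (1 - D)) ^ d := by
      rw [← Real.rpow_natCast B d, ← Real.rpow_natCast (B ^ (1 - D)) d, ← Real.rpow_mul hB0.le,
        ← Real.rpow_add hB0, hE]
      congr 1
      ring
    calc (c₁ ^ d / 2 * c₂ ^ d) * B ^ E = ((c₁ * B) ^ d / 2) * (c₂ * B ^ (1 - D)) ^ d := by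
          rw [e1, mul_pow, mul_pow]; ring
      _ ≤ N₁ * N₂ := mul_le_mul hN₁ hN₂ (by positivity) (le_trans (by positivity) hN₁)
  have h4 : (c₁ ^ d / 2 * c₂ ^ d) * B ^ E ≤ C₂ * B ^ (η₀ / 2) * R := h3.trans hR
  have e2 : B ^ E = B ^ (η₀ / 2) * (B ^ (η₀ / 2) * B ^ (E - η₀)) := by
    rw [← Real.rpow_add hB0, ← Real.rpow_add hB0]
    congr 1
    ring
  have hpos : 0 < B ^ (η₀ / 2) := Real.rpow_pos_of_pos hB0 _
  have h5 : (c₁ ^ d / 2 * c₂ ^ d) * (B ^ (η₀ / 2) * B ^ (E - η₀)) ≤ C₂ * R := by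
    rw [e2] at h4
    have : B ^ (η₀ / 2) * ((c₁ ^ d / 2 * c₂ ^ d) * (B ^ (η₀ / 2) * B ^ (E - η₀))) ≤
        B ^ (η₀ / 2) * (C₂ * R) := by
      calc _ = (c₁ ^ d / 2 * c₂ ^ d) * (B ^ (η₀ / 2) * (B ^ (η₀ / 2) * B ^ (E - η₀))) := by ring
        _ ≤ C₂ * B ^ (η₀ / 2) * R := h4
        _ = _ := by ring
    exact le_of_mul_le_mul_left this hpos
  have hone : 1 ≤ B ^ (E - η₀) := Real.one_le_rpow hB1 (by linarith)
  have h6 : (1 + qq) * B ^ (E - η₀) ≤ R := by
    have h7 : (1 + qq) * B ^ (E - η₀) ≤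
        (c₁ ^ d / 2 * c₂ ^ d / C₂) * B ^ (η₀ / 2) * B ^ (E - η₀) :=
      mul_le_mul_of_nonneg_right hB (by linarith)
    have h8 : (c₁ ^ d / 2 * c₂ ^ d / C₂) * B ^ (η₀ / 2) * B ^ (E - η₀) ≤ R := by
      rw [div_mul_eq_mul_div, div_mul_eq_mul_div, div_le_iff₀ hC₂, mul_comm R]
      calc _ = (c₁ ^ d / 2 * c₂ ^ d) * (B ^ (η₀ / 2) * B ^ (E - η₀)) := by ring
        _ ≤ _ := h5
    exact h7.trans h8
  have h9 : qq ≤ qq * B ^ (E - η₀) := le_mul_of_one_le_right hqq hone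
  rw [add_mul, one_mul] at h6
  linarith only [h6, h9]

theorem lower_bound' (hq : 1 ≤ q) (S : Set (HeightOneSpectrum (𝓞 K))) (α : Fin q → K × K)
    (hα : ∀ l m, l ≠ m → wedge (α l) (α m) ≠ 0) (hα0 : ∀ l, α l ≠ 0) (D : ℝ) (hD0 : 0 ≤ D)
    (hD1 : D < 1) (c η : ℝ) (hη : 0 < η) :
    ∃ B₀ : ℝ, ∀ B : ℝ, B₀ ≤ B → ∃ X : Finset (K × K),
      (∀ x ∈ X, ∀ l, wedge x (α l) ≠ 0) ∧
      (∀ x ∈ X, ∀ y ∈ X, x ≠ y → wedge x y ≠ 0) ∧
      (∀ x ∈ X, Real.exp (ht x) ≤ B) ∧
      (∀ x ∈ X, trunc S α x ≤ ((q : ℝ) - D) * ht x + c) ∧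
      B ^ ((2 - D) * (Module.finrank ℚ K : ℝ) - η) ≤ (X.card : ℝ) := by
  classical
  set d : ℕ := Module.finrank ℚ K with hd
  have hd1 : 1 ≤ d := Module.finrank_pos
  have hd1' : (1 : ℝ) ≤ (d : ℝ) := by exact_mod_cast hd1
  set l₀ : Fin q := ⟨0, hq⟩
  obtain ⟨b, hb⟩ : ∃ b : K × K, wedge (α l₀) b ≠ 0 := by
    rcases pair_ne_zero (hα0 l₀) with h | h
    · exact ⟨(0, 1), by simpa [wedge] using h⟩
    · exact ⟨(1, 0), by simpa [wedge] using h⟩
  obtain ⟨c₁, Z₀, hc₁, hZ₀, hbox⟩ := box_lower K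
  obtain ⟨C, hC, hht⟩ := pt_ht (α l₀) b hb
  obtain ⟨C', hC', htr⟩ := pt_trunc S α hα l₀ b hb
  set η₀ : ℝ := min η 1 with hη₀
  have hη₀pos : 0 < η₀ := lt_min hη one_pos
  obtain ⟨C₂, hC₂, hratio⟩ := ratio_count K (d : ℝ) (η₀ / 2) (by positivity) (by positivity)
  set κ : ℝ := Real.exp (-C) * (Real.exp (-(C' + |c|)) / 2) with hκ
  have hκpos : 0 < κ := by positivity
  have hev1 : ∀ᶠ B : ℝ in atTop, Z₀ ≤ κ * B ^ (1 - D) :=
    ((tendsto_rpow_atTop (by linarith)).const_mul_atTop hκpos).eventually_ge_atTop Z₀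
  have hev2 : ∀ᶠ B : ℝ in atTop, max (4 * Z₀ * Real.exp C) (8 * Real.exp C / c₁) ≤ B :=
    eventually_ge_atTop _
  have hev3 := growth d hd1 D hD1 η₀ hη₀pos (min_le_right _ _) (c₁ * Real.exp (-C) / 4) (c₁ * κ) C₂
    q (by positivity) (by positivity) hC₂ (Nat.cast_nonneg q)
  obtain ⟨B₀, hB₀⟩ := Filter.eventually_atTop.1 ((hev1.and hev2).and hev3)
  refine ⟨B₀, fun B hB => ?_⟩
  obtain ⟨⟨h1, h2⟩, h3⟩ := hB₀ B hB
  have hexpC : 1 ≤ Real.exp C := Real.one_le_exp hC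
  have hB4 : 4 * Z₀ * Real.exp C ≤ B := (le_max_left _ _).trans h2
  have hB8 : 8 * Real.exp C / c₁ ≤ B := (le_max_right _ _).trans h2
  have hB1 : 1 ≤ B :=
    (one_le_mul_of_one_le_of_one_le (by linarith only [hZ₀]) hexpC).trans hB4
  have hBpos : 0 < B := one_pos.trans_le hB1
  set L : ℝ := Real.log B with hL
  have hL0 : 0 ≤ L := Real.log_nonneg hB1
  have hexpL : Real.exp L = B := Real.exp_log hBpos
  set Y : ℝ := B * Real.exp (-C) with hY
  have hYC : Y * Real.exp C = B := by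
    rw [hY, mul_assoc, ← Real.exp_add]; simp
  have hY4 : 4 * Z₀ ≤ Y := by
    have : 4 * Z₀ * Real.exp C ≤ Y * Real.exp C := by rw [hYC]; exact hB4
    exact le_of_mul_le_mul_right this (Real.exp_pos C)
  have hYpos : 0 < Y := by linarith only [hY4, hZ₀]
  have hYB : Y ≤ B := by
    rw [← hYC]
    exact le_mul_of_one_le_right hYpos.le hexpC
  have hlogY : Real.log Y + C = L := by
    rw [hY, Real.log_mul hBpos.ne' (Real.exp_pos _).ne', Real.log_exp]; ring
  have hlog2 : 0 < Real.log 2 := Real.log_pos one_lt_two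
  set M : ℕ := ⌈(D * L + (C' + |c|)) / Real.log 2⌉₊ with hM
  have hMge : D * L + (C' + |c|) ≤ (M : ℝ) * Real.log 2 := by
    rw [← div_le_iff₀ hlog2]
    exact Nat.le_ceil _
  have hMle : (M : ℝ) * Real.log 2 ≤ D * L + (C' + |c|) + Real.log 2 := by
    have h4 : (M : ℝ) < (D * L + (C' + |c|)) / Real.log 2 + 1 :=
      Nat.ceil_lt_add_one (by positivity)
    have h5 : (M : ℝ) * Real.log 2 ≤ ((D * L + (C' + |c|)) / Real.log 2 + 1) * Real.log 2 :=
      mul_le_mul_of_nonneg_right h4.le hlog2.le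
    rwa [add_mul, div_mul_cancel₀ _ hlog2.ne', one_mul] at h5
  have h2M : (2 : ℝ) ^ M = Real.exp ((M : ℝ) * Real.log 2) := by
    rw [mul_comm, Real.exp_mul, Real.exp_log two_pos, Real.rpow_natCast]
  have h2Mpos : (0 : ℝ) < 2 ^ M := by positivity
  have hBD : B ^ (1 - D) = Real.exp (L - D * L) := by
    rw [Real.rpow_def_of_pos hBpos, ← hL]; congr 1; ring
  have hYM : κ * B ^ (1 - D) ≤ Y / 2 ^ M := by
    rw [le_div_iff₀ h2Mpos, h2M]
    calc κ * B ^ (1 - D) * Real.exp ((M : ℝ) * Real.log 2)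
        ≤ κ * B ^ (1 - D) * Real.exp (D * L + (C' + |c|) + Real.log 2) :=
          mul_le_mul_of_nonneg_left (Real.exp_le_exp.2 hMle) (by positivity)
      _ = Y := by
          rw [hκ, hBD, hY, Real.exp_add (D * L + (C' + |c|)), Real.exp_log two_pos,
            Real.exp_add (D * L), Real.exp_sub, Real.exp_neg (C' + |c|), ← hexpL]
          field_simp
  -- the two boxes
  obtain ⟨T₁, hT₁0, hT₁w, hT₁c⟩ := hbox (Y / 4) (by linarith only [hY4])
  obtain ⟨T₂, hT₂0, hT₂w, hT₂c⟩ := hbox (Y / 2 ^ M) (h1.trans hYM)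
  set P : Finset (𝓞 K) := (T₁.image fun s' => 1 + 2 * s').filter (fun s => s ≠ 0) with hP
  have hPmem : ∀ s ∈ P, s ≠ 0 ∧ (∃ s' : 𝓞 K, s = 1 + 2 * s') ∧
      ∀ w : InfinitePlace K, w (s : K) ≤ Y := by
    intro s hs
    obtain ⟨h4, h5⟩ := Finset.mem_filter.1 hs
    obtain ⟨s', hs', rfl⟩ := Finset.mem_image.1 h4
    refine ⟨h5, ⟨s', rfl⟩, fun w => ?_⟩
    have e1 : ((1 + 2 * s' : 𝓞 K) : K) = 1 + 2 * (s' : K) := by push_cast; rfl
    rw [e1]
    refine (w_add_le w _ _).trans ?_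
    rw [map_one, map_mul, w_two]
    have := hT₁w s' hs' w
    have h1Y : 1 ≤ Y / 4 := by linarith only [hY4, hZ₀]
    linarith only [this, h1Y]
  have hPcard : (c₁ * Real.exp (-C) / 4 * B) ^ d / 2 ≤ (P.card : ℝ) := by
    have e1 : c₁ * Real.exp (-C) / 4 * B = c₁ * (Y / 4) := by rw [hY]; ring
    have e2 : T₁.card ≤ P.card + 1 := by
      have e3 : (T₁.image fun s' : 𝓞 K => 1 + 2 * s').card = T₁.card := by
        refine Finset.card_image_of_injective _ fun x y h => ?_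
        have h4 : (2 : 𝓞 K) * x = 2 * y := add_left_cancel h
        exact mul_left_cancel₀ two_ne_zero h4
      rw [← e3, ← Finset.card_filter_add_card_filter_not (s := T₁.image fun s' : 𝓞 K => 1 + 2 * s')
        (fun s => s ≠ 0)]
      refine Nat.add_le_add_left ?_ _
      rw [Finset.card_le_one]
      intro x hx y hy
      rw [Finset.mem_filter, not_not] at hx hy
      rw [hx.2, hy.2]
    have e4 : (T₁.card : ℝ) ≤ (P.card : ℝ) + 1 := by exact_mod_cast e2
    have e5 : (2 : ℝ) ≤ c₁ * (Y / 4) := by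
      have : 8 / c₁ * Real.exp C ≤ Y * Real.exp C := by
        rw [hYC]
        calc 8 / c₁ * Real.exp C = 8 * Real.exp C / c₁ := by ring
          _ ≤ B := hB8
      have h6 : 8 / c₁ ≤ Y := le_of_mul_le_mul_right this (Real.exp_pos C)
      rw [div_le_iff₀ hc₁] at h6
      linarith only [h6]
    have e6 : (2 : ℝ) ≤ (c₁ * (Y / 4)) ^ d := by
      calc (2 : ℝ) ≤ c₁ * (Y / 4) := e5
        _ = (c₁ * (Y / 4)) ^ 1 := (pow_one _).symm
        _ ≤ (c₁ * (Y / 4)) ^ d := pow_le_pow_right₀ (by linarith only [e5]) hd1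
    rw [e1]
    linarith only [e4, e6, hT₁c]
  have hQcard : (c₁ * κ * B ^ (1 - D)) ^ d ≤ (T₂.card : ℝ) := by
    refine le_trans (pow_le_pow_left₀ (by positivity) ?_ d) hT₂c
    rw [mul_assoc]
    exact mul_le_mul_of_nonneg_left hYM hc₁.le
  have hT₂wY : ∀ t ∈ T₂, ∀ w : InfinitePlace K, 2 ^ M * w (t : K) ≤ Y := by
    intro t ht w
    have := hT₂w t ht w
    rw [le_div_iff₀ h2Mpos, mul_comm] at this
    exact this
  have hT₂wB : ∀ t ∈ T₂, ∀ w : InfinitePlace K, w (t : K) ≤ B := by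
    intro t ht w
    refine le_trans ?_ hYB
    refine le_trans ?_ (hT₂wY t ht w)
    have h4 : (1 : ℝ) ≤ 2 ^ M := one_le_pow₀ one_le_two
    exact le_mul_of_one_le_left (apply_nonneg w _) h4
  have hRat := hratio L hL0 P T₂ (fun s hs => (hPmem s hs).1) hT₂0
    (fun s hs => (logHeight_integral_le s B hB1 fun w => ((hPmem s hs).2.2 w).trans hYB).trans
      (mul_le_mul_of_nonneg_left (by linarith only [hL0]) (Nat.cast_nonneg _)))
    (fun t ht => (logHeight_integral_le t B hB1 fun w => hT₂wB t ht w).trans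
      (mul_le_mul_of_nonneg_left (by linarith only [hL0]) (Nat.cast_nonneg _)))
  obtain ⟨X, hX1, hX2, hX3, hX4⟩ := select_points (P ×ˢ T₂)
    (fun p : 𝓞 K × 𝓞 K => pt (α l₀) b M p.1 p.2) (fun p : 𝓞 K × 𝓞 K => (p.2 : K) / (p.1 : K))
    (by
      rintro ⟨s, t⟩ hx ⟨s', t'⟩ hy hne
      rw [Finset.mem_product] at hx hy
      have hs : (s : K) ≠ 0 := by
        have := (hPmem s hx.1).1
        exact_mod_cast this
      have hs' : (s' : K) ≠ 0 := by
        have := (hPmem s' hy.1).1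
        exact_mod_cast this
      rw [wedge_pt_pt]
      refine mul_ne_zero (mul_ne_zero (pow_ne_zero _ two_ne_zero) ?_) hb
      intro h4
      apply hne
      simp only
      rw [div_eq_div_iff hs hs']
      linear_combination (-1 : K) * h4)
    α hα0
  have hXht : ∀ x ∈ X, ht x ≤ L := by
    intro x hx
    obtain ⟨⟨s, t⟩, hst, rfl⟩ := hX1 x hx
    rw [Finset.mem_product] at hst
    rw [← hlogY]
    exact hht M s t Y (by linarith only [hY4, hZ₀]) (hPmem s hst.1).1 (hT₂0 t hst.2) (hPmem s hst.1).2.2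
      (hT₂wY t hst.2)
  refine ⟨X, hX2, hX3, ?_, ?_, ?_⟩
  · intro x hx
    rw [← hexpL]
    exact Real.exp_le_exp.2 (hXht x hx)
  · intro x hx
    have h4 := hXht x hx
    have h5 := hX2 x hx
    obtain ⟨⟨s, t⟩, hst, rfl⟩ := hX1 x hx
    rw [Finset.mem_product] at hst
    obtain ⟨h6, ⟨s', hs'⟩, h7⟩ := hPmem s hst.1
    have h8 := htr M s t s' hs' h6 (hT₂0 t hst.2) h5
    have h9 : D * ht (pt (α l₀) b M s t) ≤ D * L := mul_le_mul_of_nonneg_left h4 hD0
    have h10 := neg_abs_le c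
    simp only
    linarith only [h8, h9, h10, hMge]
  · have h4 := h3 (P.card : ℝ) (T₂.card : ℝ)
      ((((P ×ˢ T₂).image (fun p : 𝓞 K × 𝓞 K => (p.2 : K) / (p.1 : K))).card : ℕ) : ℝ) hPcard
      hQcard (by
        have e1 : B ^ (η₀ / 2) = Real.exp (η₀ / 2 * L) := by
          rw [Real.rpow_def_of_pos hBpos, ← hL]; congr 1; ring
        rw [e1]
        exact hRat)
    have h5 : ((((P ×ˢ T₂).image (fun p : 𝓞 K × 𝓞 K => (p.2 : K) / (p.1 : K))).card : ℕ) : ℝ) ≤
        (X.card : ℝ) + q := by exact_mod_cast hX4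
    have h6 : B ^ ((2 - D) * (d : ℝ) - η) ≤ B ^ ((2 - D) * (d : ℝ) - η₀) :=
      Real.rpow_le_rpow_of_exponent_le hB1 (by linarith only [min_le_left η 1, hη₀])
    linarith only [h4, h5, h6]

theorem lower_bound (hq : 2 ≤ q) (S : Set (HeightOneSpectrum (𝓞 K))) (α : Fin q → K × K)
    (hα : ∀ l m, l ≠ m → wedge (α l) (α m) ≠ 0) (D : ℝ) (hD0 : 0 ≤ D) (hD1 : D < 1) (c η : ℝ)
    (hη : 0 < η) :
    ∃ B₀ : ℝ, ∀ B : ℝ, B₀ ≤ B → ∃ X : Finset (K × K),
      (∀ x ∈ X, ∀ l, wedge x (α l) ≠ 0) ∧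
      (∀ x ∈ X, ∀ y ∈ X, x ≠ y → wedge x y ≠ 0) ∧
      (∀ x ∈ X, Real.exp (ht x) ≤ B) ∧
      (∀ x ∈ X, trunc S α x ≤ ((q : ℝ) - D) * ht x + c) ∧
      B ^ ((2 - D) * (Module.finrank ℚ K : ℝ) - η) ≤ (X.card : ℝ) := by
  refine lower_bound' (by omega) S α hα (fun l => ?_) D hD0 hD1 c η hη
  obtain ⟨m, hm⟩ : ∃ m : Fin q, m ≠ l := by
    have : Nontrivial (Fin q) := Fin.nontrivial_iff_two_le.2 hq
    exact exists_ne l
  exact wedge_left_ne (hα l m hm.symm)

end Pool.Agent.Lib.MP_4d5ce1_nt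
end
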